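import Pool.Agent.W285.EV.Stm

/-!
# Covers by subcubes with vanishing alternating sums
-/

set_option autoImplicit false

namespace Pool.Agent.W460.EV

open Pool.Agent.W285.EV

variable {n : ℕ}

lemma mem_sub (p : Fin n → Option Bool) (x : Cube n) :
    x ∈ sub p ↔ ∀ i b, p i = some b → x i = b := by
  unfold sub
  rw [Finset.mem_filter]
  exact ⟨fun h => h.2, fun h => ⟨Finset.mem_univ _, h⟩⟩

lemma mem_sub_update (p : Fin n → Option Bool) (i : Fin n) (b : Bool) (hi : p i = none)
    (x : Cube n) : x ∈ sub (Function.update p i (some b)) ↔ x ∈ sub p ∧ x i = b := by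
  rw [mem_sub, mem_sub]
  constructor
  · intro h
    refine ⟨?_, ?_⟩
    · intro j c hj
      apply h j c
      rw [Function.update_of_ne, hj]
      rintro rfl
      rw [hi] at hj
      cases hj
    · apply h i b
      rw [Function.update_self]
  · rintro ⟨h1, h2⟩ j c hj
    by_cases hji : j = i
    · subst hji
      rw [Function.update_self] at hj
      rw [h2]
      exact Option.some.inj hj
    · rw [Function.update_of_ne hji] at hj
      exact h1 j c hj

lemma codim_update (p : Fin n → Option Bool) (i : Fin n) (b : Bool) (hi : p i = none) :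
    codim (Function.update p i (some b)) = codim p + 1 := by
  unfold codim
  have h : (Finset.univ.filter (fun j => Function.update p i (some b) j ≠ none)) =
      insert i (Finset.univ.filter (fun j => p j ≠ none)) := by
    ext j
    simp only [Finset.mem_filter, Finset.mem_univ, true_and, Finset.mem_insert]
    by_cases hji : j = i
    · subst hji
      simp
    · rw [Function.update_of_ne hji]
      simp [hji]
  rw [h, Finset.card_insert_of_notMem]
  rw [Finset.mem_filter]
  rintro ⟨-, h2⟩
  exact h2 hi

lemma exists_free (p : Fin n → Option Bool) (h : codim p < n) : ∃ i, p i = none := by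
  by_contra hcon
  push Not at hcon
  have h1 : (Finset.univ.filter (fun i => p i ≠ none)) = Finset.univ :=
    Finset.filter_true_of_mem fun i _ => hcon i
  unfold codim at h
  rw [h1, Finset.card_univ, Fintype.card_fin] at h
  omega

lemma wt_update (x : Cube n) (i : Fin n) :
    wt (Function.update x i true) = wt (Function.update x i false) + 1 := by
  unfold wt
  have h : (Finset.univ.filter (fun j => Function.update x i true j = true)) =
      insert i (Finset.univ.filter (fun j => Function.update x i false j = true)) := by
    ext j
    simp only [Finset.mem_filter, Finset.mem_univ, true_and, Finset.mem_insert]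
    by_cases hji : j = i
    · subst hji
      simp
    · rw [Function.update_of_ne hji, Function.update_of_ne hji]
      simp [hji]
  rw [h, Finset.card_insert_of_notMem]
  rw [Finset.mem_filter]
  rintro ⟨-, h2⟩
  rw [Function.update_self] at h2
  cases h2

lemma sign_flip (x : Cube n) (i : Fin n) :
    ((-1 : ℤ)) ^ wt x + (-1) ^ wt (Function.update x i (!x i)) = 0 := by
  have h := wt_update x i
  cases hx : x i with
  | false =>
    have e : Function.update x i false = x := by rw [← hx, Function.update_eq_self]
    rw [e] at h
    change (-1 : ℤ) ^ wt x + (-1) ^ wt (Function.update x i true) = 0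
    rw [h, pow_succ]
    ring
  | true =>
    have e : Function.update x i true = x := by rw [← hx, Function.update_eq_self]
    rw [e] at h
    change (-1 : ℤ) ^ wt x + (-1) ^ wt (Function.update x i false) = 0
    rw [h, pow_succ]
    ring

lemma alt_congr (f g : Cube n → Bool) (p : Fin n → Option Bool) (h : ∀ x ∈ sub p, g x = f x) :
    alt g p = alt f p := by
  unfold alt
  exact Finset.sum_congr rfl fun x hx => by rw [h x hx]

lemma alt_split (g : Cube n → Bool) (p : Fin n → Option Bool) (i : Fin n) (hi : p i = none) :
    alt g p = alt g (Function.update p i (some false)) +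
      alt g (Function.update p i (some true)) := by
  unfold alt
  have h1 : sub (Function.update p i (some false)) = (sub p).filter (fun x => x i = false) := by
    ext x
    rw [mem_sub_update p i false hi, Finset.mem_filter]
  have h2 : sub (Function.update p i (some true)) = (sub p).filter (fun x => ¬ x i = false) := by
    ext x
    rw [mem_sub_update p i true hi, Finset.mem_filter]
    simp
  rw [h1, h2, Finset.sum_filter_add_sum_filter_not]

lemma update_eq (p : Fin n → Option Bool) (i : Fin n) (b : Bool) (hi : p i = some b) (x : Cube n)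
    (hx : x ∈ sub p) : Function.update x i b = x := by
  rw [← (mem_sub p x).1 hx i b hi, Function.update_eq_self]

/-- Claim A -/
lemma alt_zero {k : ℕ} {g : Cube n → Bool} (h : Dec k g) :
    ∀ p : Fin n → Option Bool, k + codim p < n → alt g p = 0 := by
  induction h with
  | const m g hg =>
    intro p hp
    obtain ⟨i, hi⟩ := exists_free p (by omega)
    unfold alt
    refine Finset.sum_involution (fun x _ => Function.update x i (!x i)) ?_ ?_ ?_ ?_
    · intro x _
      rw [hg (Function.update x i (!x i)) x]
      by_cases hx : g x = true
      · rw [if_pos hx, if_pos hx]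
        exact sign_flip x i
      · rw [if_neg hx, if_neg hx, add_zero]
    · intro x _ _ h1
      have h2 := congrFun h1 i
      simp only [Function.update_self] at h2
      cases hx : x i <;> rw [hx] at h2 <;> cases h2
    · intro x hx
      rw [mem_sub] at hx ⊢
      intro j b hj
      have hji : j ≠ i := by
        rintro rfl
        rw [hi] at hj
        cases hj
      rw [Function.update_of_ne hji]
      exact hx j b hj
    · intro x _
      simp
  | query m g i h0 h1 ih0 ih1 =>
    intro p hp
    cases hi : p i with
    | some b =>
      cases b with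
      | false =>
        rw [← ih0 p (by omega)]
        exact alt_congr _ _ p fun x hx => by rw [update_eq p i false hi x hx]
      | true =>
        rw [← ih1 p (by omega)]
        exact alt_congr _ _ p fun x hx => by rw [update_eq p i true hi x hx]
    | none =>
      rw [alt_split g p i hi]
      have e0 := ih0 (Function.update p i (some false)) (by rw [codim_update p i _ hi]; omega)
      have e1 := ih1 (Function.update p i (some true)) (by rw [codim_update p i _ hi]; omega)
      have q0 : alt g (Function.update p i (some false)) = 0 := by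
        rw [← e0]
        exact alt_congr _ _ _ fun x hx => by
          rw [update_eq _ i false (Function.update_self _ _ _) x hx]
      have q1 : alt g (Function.update p i (some true)) = 0 := by
        rw [← e1]
        exact alt_congr _ _ _ fun x hx => by
          rw [update_eq _ i true (Function.update_self _ _ _) x hx]
      rw [q0, q1, add_zero]

/-- a tree on the subcube -/
def Tr (f : Cube n → Bool) (p : Fin n → Option Bool) : Prop :=
  ∃ (k : ℕ) (g : Cube n → Bool), Dec k g ∧ k + codim p < n ∧ ∀ x ∈ sub p, g x = f x

/-- Claim B -/
lemma step {k : ℕ} {g : Cube n → Bool} (h : Dec k g) :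
    ∀ p : Fin n → Option Bool, k + codim p < n → codim p + 1 < n →
      ∃ i, p i = none ∧ ∀ b, Tr g (Function.update p i (some b)) := by
  induction h with
  | const m g hg =>
    intro p hp hp1
    obtain ⟨i, hi⟩ := exists_free p (by omega)
    refine ⟨i, hi, fun b => ⟨0, g, Dec.const 0 g hg, ?_, fun x _ => rfl⟩⟩
    rw [codim_update p i _ hi]
    omega
  | query m g i h0 h1 ih0 ih1 =>
    intro p hp hp1
    cases hi : p i with
    | some b =>
      have key : ∀ g' : Cube n → Bool, (∀ x ∈ sub p, g' x = g x) →
          (∃ i, p i = none ∧ ∀ b, Tr g' (Function.update p i (some b))) →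
          ∃ i, p i = none ∧ ∀ b, Tr g (Function.update p i (some b)) := by
        rintro g' hg' ⟨j, hj, hT⟩
        refine ⟨j, hj, fun c => ?_⟩
        obtain ⟨k', g'', a1, a2, a3⟩ := hT c
        refine ⟨k', g'', a1, a2, fun x hx => ?_⟩
        rw [a3 x hx]
        exact hg' x ((mem_sub_update p j c hj x).1 hx).1
      cases b with
      | false =>
        refine key _ ?_ (ih0 p (by omega) hp1)
        intro x hx
        rw [update_eq p i false hi x hx]
      | true =>
        refine key _ ?_ (ih1 p (by omega) hp1)
        intro x hx
        rw [update_eq p i true hi x hx]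
    | none =>
      refine ⟨i, hi, fun b => ?_⟩
      cases b with
      | false =>
        refine ⟨m, _, h0, ?_, ?_⟩
        · rw [codim_update p i _ hi]
          omega
        · intro x hx
          rw [update_eq _ i false (Function.update_self _ _ _) x hx]
      | true =>
        refine ⟨m, _, h1, ?_, ?_⟩
        · rw [codim_update p i _ hi]
          omega
        · intro x hx
          rw [update_eq _ i true (Function.update_self _ _ _) x hx]

lemma Tr.step {f : Cube n → Bool} {p : Fin n → Option Bool} (h : Tr f p) (hp : codim p + 1 < n) :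
    ∃ i, p i = none ∧ ∀ b, Tr f (Function.update p i (some b)) := by
  obtain ⟨k, g, h1, h2, h3⟩ := h
  obtain ⟨i, hi, hT⟩ := EV.step h1 p h2 hp
  refine ⟨i, hi, fun b => ?_⟩
  obtain ⟨k', g', a1, a2, a3⟩ := hT b
  refine ⟨k', g', a1, a2, fun x hx => ?_⟩
  rw [a3 x hx]
  exact h3 x ((mem_sub_update p i b hi x).1 hx).1

lemma cover_aux (f : Cube n → Bool) (k : ℕ) (hk : k < n) (hf : Dec k f) : ∀ r : ℕ, r + 1 ≤ n →
    ∃ 𝒬 : Finset (Fin n → Option Bool), 𝒬.card ≤ 2 ^ r ∧
      (∀ p ∈ 𝒬, codim p = r ∧ Tr f p) ∧ ∀ x : Cube n, ∃ p ∈ 𝒬, x ∈ sub p := by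
  classical
  intro r
  induction r with
  | zero =>
    intro _
    have hc : codim (fun _ : Fin n => (none : Option Bool)) = 0 := by
      unfold codim
      simp
    refine ⟨{fun _ => none}, by simp, ?_, ?_⟩
    · intro p hp
      rw [Finset.mem_singleton] at hp
      subst hp
      exact ⟨hc, k, f, hf, by rw [hc]; omega, fun x _ => rfl⟩
    · intro x
      refine ⟨_, Finset.mem_singleton_self _, ?_⟩
      rw [mem_sub]
      intro i b h
      cases h
  | succ r ih =>
    intro hr
    obtain ⟨𝒬, h1, h2, h3⟩ := ih (by omega)
    have h4 : ∀ p : Fin n → Option Bool, ∃ i, p ∈ 𝒬 → p i = none ∧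
        ∀ b, Tr f (Function.update p i (some b)) := by
      intro p
      by_cases hp : p ∈ 𝒬
      · obtain ⟨i, hi⟩ := (h2 p hp).2.step (by rw [(h2 p hp).1]; omega)
        exact ⟨i, fun _ => hi⟩
      · exact ⟨⟨0, by omega⟩, fun h => absurd h hp⟩
    choose i hi using h4
    refine ⟨𝒬.biUnion (fun p => {Function.update p (i p) (some false),
      Function.update p (i p) (some true)}), ?_, ?_, ?_⟩
    · refine (Finset.card_biUnion_le_card_mul _ _ 2 fun p _ => Finset.card_le_two).trans ?_
      rw [pow_succ]
      exact Nat.mul_le_mul_right 2 h1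
    · intro q hq
      obtain ⟨p, hp, hq⟩ := Finset.mem_biUnion.1 hq
      obtain ⟨a1, a2⟩ := hi p hp
      rw [Finset.mem_insert, Finset.mem_singleton] at hq
      rcases hq with rfl | rfl
      · exact ⟨by rw [codim_update p _ _ a1, (h2 p hp).1], a2 false⟩
      · exact ⟨by rw [codim_update p _ _ a1, (h2 p hp).1], a2 true⟩
    · intro x
      obtain ⟨p, hp, hx⟩ := h3 x
      obtain ⟨a1, a2⟩ := hi p hp
      refine ⟨Function.update p (i p) (some (x (i p))), ?_, ?_⟩
      · rw [Finset.mem_biUnion]
        refine ⟨p, hp, ?_⟩
        rw [Finset.mem_insert, Finset.mem_singleton]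
        cases x (i p)
        · exact Or.inl rfl
        · exact Or.inr rfl
      · rw [mem_sub_update p _ _ a1]
        exact ⟨hx, rfl⟩

theorem cover : S_COVER := by
  intro n r hr f hf
  unfold Evasive at hf
  push Not at hf
  obtain ⟨k, hk1, hk2⟩ := hf
  obtain ⟨𝒬, h1, h2, h3⟩ := cover_aux f k hk2 hk1 r hr
  refine ⟨𝒬, h1, fun p hp => ⟨(h2 p hp).1, ?_⟩, h3⟩
  obtain ⟨m, g, a1, a2, a3⟩ := (h2 p hp).2
  rw [← alt_congr f g p a3]
  exact alt_zero a1 p a2

end Pool.Agent.W460.EV
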